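import Mathlib
import Pool.Agent.H4.TP2

set_option maxHeartbeats 400000

open Matrix Finset Filter Topology

namespace Pool.Agent.Results.MP_c12a31_an.Yes

open Pool.Agent.H4.TP2

/-- `K` is totally nonnegative. -/
def TN {X Y : Set ℝ} (K : X × Y → ℝ) : Prop :=
  ∀ (n : ℕ) (x : Fin n → X) (y : Fin n → Y), 1 ≤ n → StrictMono x → StrictMono y →
    0 ≤ (Matrix.of fun i j => K (x i, y j)).det

/-- `K` is totally positive. -/
def TP {X Y : Set ℝ} (K : X × Y → ℝ) : Prop :=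
  ∀ (n : ℕ) (x : Fin n → X) (y : Fin n → Y), 1 ≤ n → StrictMono x → StrictMono y →
    0 < (Matrix.of fun i j => K (x i, y j)).det

theorem far {β δ r η x s s0 : ℝ} (hβ : 0 < β) (hδ : 0 < δ) (h0 : (x - s0) ^ 2 ≤ δ ^ 2 / 2)
    (hr : r ≤ δ ^ 2 / 2) (hη : Real.exp (-(β * r)) ≤ η) (hs : δ ≤ |x - s|) :
    gs β x s ≤ η * gs β x s0 := by
  have h1 : δ ^ 2 ≤ (x - s) ^ 2 := by
    rw [← sq_abs (x - s)]
    exact pow_le_pow_left₀ hδ.le hs 2
  have h2 : gs β x s ≤ Real.exp (-(β * r)) * gs β x s0 := by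
    unfold gs
    rw [← Real.exp_add, Real.exp_le_exp]
    nlinarith
  exact h2.trans (mul_le_mul_of_nonneg_right hη (gs_pos _ _ _).le)

theorem main_est {S T : Finset ℝ} {k : ℝ → ℝ → ℝ} {β δ r η ε v x y s0 t0 : ℝ} (hβ : 0 < β)
    (hδ : 0 < δ) (hε : 0 ≤ ε) (hs0 : s0 ∈ S) (ht0 : t0 ∈ T) (h0 : (x - s0) ^ 2 ≤ δ ^ 2 / 2)
    (h0' : (y - t0) ^ 2 ≤ δ ^ 2 / 2) (hr : r ≤ δ ^ 2 / 2) (hη : Real.exp (-(β * r)) ≤ η)
    (hnear : ∀ s ∈ S, ∀ t ∈ T, |x - s| < δ → |y - t| < δ → |k s t - v| ≤ ε) :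
    |∑ s ∈ S, gs β x s * ∑ t ∈ T, k s t * gs β y t -
        v * ((∑ s ∈ S, gs β x s) * ∑ t ∈ T, gs β y t)| ≤
      (ε + η * ∑ s ∈ S, ∑ t ∈ T, (|k s t| + |v|)) *
        ((∑ s ∈ S, gs β x s) * ∑ t ∈ T, gs β y t) := by
  set Z := ∑ s ∈ S, gs β x s with hZ
  set W := ∑ t ∈ T, gs β y t with hW
  have hη0 : 0 < η := lt_of_lt_of_le (Real.exp_pos _) hη
  have hsZ : ∀ s ∈ S, gs β x s ≤ Z := fun s hs =>
    Finset.single_le_sum (f := fun s => gs β x s) (fun s _ => (gs_pos _ _ _).le) hs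
  have htW : ∀ t ∈ T, gs β y t ≤ W := fun t ht =>
    Finset.single_le_sum (f := fun t => gs β y t) (fun s _ => (gs_pos _ _ _).le) ht
  have hZ0 : 0 < Z := lt_of_lt_of_le (gs_pos _ _ _) (hsZ _ hs0)
  have hW0 : 0 < W := lt_of_lt_of_le (gs_pos _ _ _) (htW _ ht0)
  have e1 : ∑ s ∈ S, gs β x s * ∑ t ∈ T, k s t * gs β y t - v * (Z * W) =
      ∑ s ∈ S, ∑ t ∈ T, gs β x s * gs β y t * (k s t - v) := by
    rw [hZ, hW, Finset.sum_mul_sum, Finset.mul_sum, ← Finset.sum_sub_distrib]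
    refine Finset.sum_congr rfl fun s _ => ?_
    rw [Finset.mul_sum, Finset.mul_sum, ← Finset.sum_sub_distrib]
    refine Finset.sum_congr rfl fun t _ => ?_
    ring
  have e2 : (ε + η * ∑ s ∈ S, ∑ t ∈ T, (|k s t| + |v|)) * (Z * W) =
      ∑ s ∈ S, ∑ t ∈ T, (gs β x s * gs β y t * ε + η * (Z * W) * (|k s t| + |v|)) := by
    simp only [Finset.sum_add_distrib (f := fun t => gs β x _ * gs β y t * ε),
      Finset.sum_add_distrib (f := fun s => ∑ t ∈ T, gs β x s * gs β y t * ε),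
      ← Finset.mul_sum, ← Finset.sum_mul]
    rw [Finset.sum_add_distrib, ← Finset.mul_sum, ← Finset.sum_mul, ← Finset.sum_mul, ← hZ, ← hW]
    ring
  rw [e1, e2]
  refine (Finset.abs_sum_le_sum_abs _ _).trans (Finset.sum_le_sum fun s hs => ?_)
  refine (Finset.abs_sum_le_sum_abs _ _).trans (Finset.sum_le_sum fun t ht => ?_)
  have g1 := gs_pos β x s
  have g2 := gs_pos β y t
  have g3 : 0 < gs β x s * gs β y t := mul_pos g1 g2
  rw [abs_mul, abs_of_pos g3]
  have hkv : |k s t - v| ≤ |k s t| + |v| := abs_sub _ _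
  have hn : 0 ≤ |k s t| + |v| := by positivity
  have hfar : gs β x s * gs β y t ≤ η * (Z * W) →
      gs β x s * gs β y t * |k s t - v| ≤
        gs β x s * gs β y t * ε + η * (Z * W) * (|k s t| + |v|) := by
    intro h
    have := mul_le_mul h hkv (abs_nonneg _) (by positivity)
    have := mul_nonneg g3.le hε
    linarith
  by_cases c1 : |x - s| < δ
  · by_cases c2 : |y - t| < δ
    · have := mul_le_mul_of_nonneg_left (hnear s hs t ht c1 c2) g3.le
      have : 0 ≤ η * (Z * W) * (|k s t| + |v|) := by positivity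
      linarith
    · refine hfar ?_
      have h1 := far hβ hδ h0' hr hη (not_lt.1 c2)
      have h2 : gs β y t ≤ η * W := h1.trans (mul_le_mul_of_nonneg_left (htW _ ht0) hη0.le)
      calc gs β x s * gs β y t ≤ Z * (η * W) := mul_le_mul (hsZ s hs) h2 g2.le hZ0.le
        _ = η * (Z * W) := by ring
  · refine hfar ?_
    have h1 := far hβ hδ h0 hr hη (not_lt.1 c1)
    have h2 : gs β x s ≤ η * Z := h1.trans (mul_le_mul_of_nonneg_left (hsZ _ hs0) hη0.le)
    calc gs β x s * gs β y t ≤ (η * Z) * W := mul_le_mul h2 (htW t ht) g2.le (by positivity)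
      _ = η * (Z * W) := by ring

theorem tail_est {β c R x y : ℝ} (hβ : 0 < β) (hc : 0 < c) :
    |∑' l : ℕ, gs β x (R + l) * (c * Real.exp (-l) * gs β y (R + l))| ≤
      c * ∑' l : ℕ, Real.exp (-l) := by
  rw [← tsum_mul_left, ← Real.norm_eq_abs]
  refine tsum_of_norm_bounded (Real.summable_exp_neg_nat.mul_left c).hasSum fun l => ?_
  have h1 := gs_le_one hβ x (R + l)
  have h2 := gs_le_one hβ y (R + l)
  have h3 := gs_pos β x (R + l)
  have h4 := gs_pos β y (R + l)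
  have h5 : 0 < c * Real.exp (-l) := by positivity
  have h6 : c * Real.exp (-l) * gs β y (R + l) ≤ c * Real.exp (-l) :=
    mul_le_of_le_one_right h5.le h2
  have h7 : 0 ≤ c * Real.exp (-l) * gs β y (R + l) := by positivity
  rw [Real.norm_eq_abs, abs_of_nonneg (by positivity)]
  exact le_trans (mul_le_of_le_one_left h7 h1) h6

theorem near_pt {X : Set ℝ} {a : ℕ → X} (ha : DenseRange a) (x : X) {δ : ℝ} (hδ : 0 < δ) :
    ∃ i, ((x : ℝ) - a i) ^ 2 ≤ δ ^ 2 / 2 ∧ ((x : ℝ) - a i) ^ 2 ≤ 1 := by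
  obtain ⟨i, hi⟩ := ha.exists_dist_lt x (lt_min (half_pos hδ) one_pos)
  rw [Subtype.dist_eq, Real.dist_eq, lt_min_iff] at hi
  refine ⟨i, ?_, ?_⟩
  · have := abs_lt.1 hi.1
    nlinarith
  · have := abs_lt.1 hi.2
    nlinarith

theorem result (X Y : Set ℝ) (hX : X.Infinite) (hY : Y.Infinite) (K : X × Y → ℝ) (hK : TN K) :
    ∃ Km : ℕ → X × Y → ℝ, (∀ m, TP (Km m)) ∧
      ∀ p : X × Y, ContinuousAt K p → Tendsto (fun m => Km m p) atTop (𝓝 (K p)) := by
  classical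
  haveI : Nonempty X := hX.nonempty.to_subtype
  haveI : Nonempty Y := hY.nonempty.to_subtype
  obtain ⟨a, ha⟩ := TopologicalSpace.exists_dense_seq X
  obtain ⟨b, hb⟩ := TopologicalSpace.exists_dense_seq Y
  let k : ℝ → ℝ → ℝ := fun s t => if h : s ∈ X ∧ t ∈ Y then K (⟨s, h.1⟩, ⟨t, h.2⟩) else 0
  have hkK : ∀ (s : X) (t : Y), k s t = K (s, t) := by
    intro s t
    simp [k, s.2, t.2]
  have hk : TNon X Y k := by
    intro n x y hx hy hxX hyY
    rcases Nat.eq_zero_or_pos n with rfl | hn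
    · simp
    have := hK n (fun i => ⟨x i, hxX i⟩) (fun j => ⟨y j, hyY j⟩) hn
      (fun i j hij => hx hij) (fun i j hij => hy hij)
    have e : (Matrix.of fun i j => k (x i) (y j)) =
        Matrix.of fun i j => K (⟨x i, hxX i⟩, ⟨y j, hyY j⟩) := by
      ext i j
      exact hkK ⟨x i, hxX i⟩ ⟨y j, hyY j⟩
    rw [e]; exact this
  let S : ℕ → Finset ℝ := fun m => (Finset.range (m + 1)).image fun i => (a i : ℝ)
  let T : ℕ → Finset ℝ := fun m => (Finset.range (m + 1)).image fun i => (b i : ℝ)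
  have hSX : ∀ m, ∀ s ∈ S m, s ∈ X := by
    intro m s hs
    obtain ⟨i, _, rfl⟩ := Finset.mem_image.1 hs
    exact (a i).2
  have hTY : ∀ m, ∀ s ∈ T m, s ∈ Y := by
    intro m s hs
    obtain ⟨i, _, rfl⟩ := Finset.mem_image.1 hs
    exact (b i).2
  have hSm : ∀ m i, i ≤ m → (a i : ℝ) ∈ S m := fun m i hi =>
    Finset.mem_image.2 ⟨i, Finset.mem_range.2 (Nat.lt_succ_of_le hi), rfl⟩
  have hTm : ∀ m i, i ≤ m → (b i : ℝ) ∈ T m := fun m i hi =>
    Finset.mem_image.2 ⟨i, Finset.mem_range.2 (Nat.lt_succ_of_le hi), rfl⟩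
  have hR : ∀ m, ∃ R : ℝ, (∀ s ∈ S m, s < R) ∧ ∀ t ∈ T m, t < R := by
    intro m
    obtain ⟨u, hu⟩ := (S m ∪ T m).bddAbove
    refine ⟨u + 1, fun s hs => ?_, fun s hs => ?_⟩
    · have := hu (show s ∈ ((S m ∪ T m : Finset ℝ) : Set ℝ) by simp [hs])
      linarith
    · have := hu (show s ∈ ((S m ∪ T m : Finset ℝ) : Set ℝ) by simp [hs])
      linarith
  choose R hR1 hR2 using hR
  let C : ℕ → ℝ := fun m => ∑ s ∈ S m, ∑ t ∈ T m, (|k s t| + 1) + 1
  have hC : ∀ m, 0 < C m := fun m => by positivity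
  let β : ℕ → ℝ := fun m => ((m : ℝ) + 1) * (((m : ℝ) + 1) * C m)
  have hβ : ∀ m, 0 < β m := fun m => by have := hC m; positivity
  let c : ℕ → ℝ := fun m => Real.exp (-β m) * Real.exp (-β m) * (1 / ((m : ℝ) + 1))
  have hc : ∀ m, 0 < c m := fun m => by positivity
  let Z : ℕ → ℝ → ℝ := fun m x => ∑ s ∈ S m, gs (β m) x s
  let W : ℕ → ℝ → ℝ := fun m y => ∑ t ∈ T m, gs (β m) y t
  have hZ : ∀ m x, 0 < Z m x := fun m x =>
    Finset.sum_pos (fun s _ => gs_pos _ _ _) ⟨_, hSm m 0 (Nat.zero_le _)⟩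
  have hW : ∀ m x, 0 < W m x := fun m x =>
    Finset.sum_pos (fun s _ => gs_pos _ _ _) ⟨_, hTm m 0 (Nat.zero_le _)⟩
  let H : ℕ → ℝ → ℝ → ℝ := fun m x y =>
    ∑ s ∈ S m, gs (β m) x s * ∑ t ∈ T m, k s t * gs (β m) y t +
      ∑' l : ℕ, gs (β m) x (R m + l) * (c m * Real.exp (-l) * gs (β m) y (R m + l))
  refine ⟨fun m p => (Z m p.1)⁻¹ * ((W m p.2)⁻¹ * H m p.1 p.2), ?_, ?_⟩
  · intro m n x y _ hx hy
    have h := full_tp hk (hc m) (hβ m) (hR1 m) (hR2 m) (hSX m) (hTY m)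
      (fun i => (x i : ℝ)) (fun j => (y j : ℝ)) (fun i j hij => hx hij) (fun i j hij => hy hij)
    have e : (Matrix.of fun i j => (Z m (x i))⁻¹ * ((W m (y j))⁻¹ * H m (x i) (y j))) =
        Matrix.of fun i j => (fun i => (Z m (x i))⁻¹) i *
          (Matrix.of fun i j => (fun j => (W m (y j))⁻¹) j *
            (Matrix.of fun i j => H m (x i) (y j)) i j) i j := by
      ext i j; simp
    show 0 < (Matrix.of fun i j => (Z m (x i))⁻¹ * ((W m (y j))⁻¹ * H m (x i) (y j))).det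
    rw [e, det_mul_column, det_mul_row]
    exact mul_pos (Finset.prod_pos fun i _ => inv_pos.2 (hZ _ _))
      (mul_pos (Finset.prod_pos fun i _ => inv_pos.2 (hW _ _)) h)
  · rintro ⟨x, y⟩ hp
    rw [Metric.tendsto_nhds]
    intro ε hε
    obtain ⟨δ, hδ, hδ2⟩ := Metric.continuousAt_iff.1 hp (ε / 2) (half_pos hε)
    obtain ⟨i, hi1, hi2⟩ := near_pt ha x hδ
    obtain ⟨j, hj1, hj2⟩ := near_pt hb y hδ
    set v := K (x, y) with hv
    set E := ∑' l : ℕ, Real.exp (-l) with hE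
    have t1 : Tendsto (fun m : ℕ => 1 / ((m : ℝ) + 1)) atTop (𝓝 0) :=
      tendsto_one_div_add_atTop_nhds_zero_nat
    have t2 : Tendsto (fun m : ℕ => (1 + |v| + E) * (1 / ((m : ℝ) + 1))) atTop (𝓝 0) := by
      simpa using t1.const_mul (1 + |v| + E)
    filter_upwards [eventually_ge_atTop i, eventually_ge_atTop j,
      t1.eventually (ge_mem_nhds (show (0 : ℝ) < δ ^ 2 / 2 by positivity)),
      t2.eventually (gt_mem_nhds (half_pos hε))] with m hmi hmj hm1 hm2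
    have hm0 : (0 : ℝ) < (m : ℝ) + 1 := by positivity
    have hη : Real.exp (-(β m * (1 / ((m : ℝ) + 1)))) ≤ (((m : ℝ) + 1) * C m)⁻¹ := by
      have e : β m * (1 / ((m : ℝ) + 1)) = ((m : ℝ) + 1) * C m := by
        simp only [β]; field_simp
      rw [e, Real.exp_neg]
      have h1 : 0 < ((m : ℝ) + 1) * C m := mul_pos hm0 (hC m)
      refine inv_anti₀ h1 ?_
      have := Real.add_one_le_exp (((m : ℝ) + 1) * C m)
      linarith
    have hmain := main_est (k := k) (v := v) (hβ m) hδ (half_pos hε).le (hSm m i hmi)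
      (hTm m j hmj) hi1 hj1 hm1 hη (by
        intro s hs t ht h1 h2
        have := @hδ2 (⟨s, hSX m s hs⟩, ⟨t, hTY m t ht⟩) (by
          rw [Prod.dist_eq, max_lt_iff, Subtype.dist_eq, Subtype.dist_eq, Real.dist_eq,
            Real.dist_eq, abs_sub_comm s, abs_sub_comm t]
          exact ⟨h1, h2⟩)
        rw [Real.dist_eq, ← hkK] at this
        exact this.le)
    have htail := tail_est (R := R m) (x := x) (y := y) (hβ m) (hc m)
    have hE0 : 0 ≤ E := tsum_nonneg fun l => (Real.exp_pos _).le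
    have hZ1 : Real.exp (-β m) ≤ Z m x := by
      refine le_trans ?_ (Finset.single_le_sum (f := fun s => gs (β m) x s)
        (fun s _ => (gs_pos _ _ _).le) (hSm m i hmi))
      unfold gs
      rw [Real.exp_le_exp]
      have := hβ m
      nlinarith
    have hW1 : Real.exp (-β m) ≤ W m y := by
      refine le_trans ?_ (Finset.single_le_sum (f := fun s => gs (β m) y s)
        (fun s _ => (gs_pos _ _ _).le) (hTm m j hmj))
      unfold gs
      rw [Real.exp_le_exp]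
      have := hβ m
      nlinarith
    have hZW : 0 < Z m x * W m y := mul_pos (hZ _ _) (hW _ _)
    have htail2 : c m * E ≤ (E * (1 / ((m : ℝ) + 1))) * (Z m x * W m y) := by
      have h1 : Real.exp (-β m) * Real.exp (-β m) ≤ Z m x * W m y :=
        mul_le_mul hZ1 hW1 (Real.exp_pos _).le (hZ _ _).le
      have h2 : 0 ≤ E * (1 / ((m : ℝ) + 1)) := by positivity
      calc c m * E = (E * (1 / ((m : ℝ) + 1))) * (Real.exp (-β m) * Real.exp (-β m)) := by
            simp only [c]; ring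
        _ ≤ _ := mul_le_mul_of_nonneg_left h1 h2
    have hsum : (((m : ℝ) + 1) * C m)⁻¹ * ∑ s ∈ S m, ∑ t ∈ T m, (|k s t| + |v|) ≤
        (1 + |v|) * (1 / ((m : ℝ) + 1)) := by
      have h1 : ∑ s ∈ S m, ∑ t ∈ T m, (|k s t| + |v|) ≤ (1 + |v|) * C m := by
        have h2 : ∑ s ∈ S m, ∑ t ∈ T m, (|k s t| + |v|) ≤
            (1 + |v|) * ∑ s ∈ S m, ∑ t ∈ T m, (|k s t| + 1) := by
          rw [Finset.mul_sum]
          refine Finset.sum_le_sum fun s _ => ?_
          rw [Finset.mul_sum]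
          refine Finset.sum_le_sum fun t _ => ?_
          have := mul_nonneg (abs_nonneg v) (abs_nonneg (k s t))
          nlinarith
        have h3 : 0 ≤ |v| := abs_nonneg v
        simp only [C]
        nlinarith
      have h4 := hC m
      calc _ ≤ (((m : ℝ) + 1) * C m)⁻¹ * ((1 + |v|) * C m) :=
            mul_le_mul_of_nonneg_left h1 (by positivity)
        _ = _ := by field_simp
    rw [Real.dist_eq]
    have e : (Z m x)⁻¹ * ((W m y)⁻¹ * H m x y) - v =
        (H m x y - v * (Z m x * W m y)) / (Z m x * W m y) := by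
      have := hZ m x
      have := hW m y
      field_simp
    show |(Z m x)⁻¹ * ((W m y)⁻¹ * H m x y) - v| < ε
    rw [e, abs_div, abs_of_pos hZW, div_lt_iff₀ hZW]
    have h6 : (ε / 2 + (1 + |v|) * (1 / ((m : ℝ) + 1)) + E * (1 / ((m : ℝ) + 1))) *
        (Z m x * W m y) < ε * (Z m x * W m y) := by
      refine mul_lt_mul_of_pos_right ?_ hZW
      linarith
    have h7 : H m x y - v * (Z m x * W m y) =
        (∑ s ∈ S m, gs (β m) x s * ∑ t ∈ T m, k s t * gs (β m) y t - v * (Z m x * W m y)) +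
          ∑' l : ℕ, gs (β m) x (R m + l) * (c m * Real.exp (-l) * gs (β m) y (R m + l)) := by
      simp only [H]; ring
    rw [h7]
    refine lt_of_le_of_lt (abs_add_le _ _) ?_
    have h8 := htail.trans htail2
    have h9 : |∑ s ∈ S m, gs (β m) x s * ∑ t ∈ T m, k s t * gs (β m) y t - v * (Z m x * W m y)| ≤
        (ε / 2 + (1 + |v|) * (1 / ((m : ℝ) + 1))) * (Z m x * W m y) := by
      refine hmain.trans (mul_le_mul_of_nonneg_right ?_ hZW.le)
      linarith
    linarith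

end Pool.Agent.Results.MP_c12a31_an.Yes
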